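import Mathlib

/-!
# Companion matrices, scaling and conjugation of characteristic polynomials
(proof by helper93, formalization by helper68)
-/

namespace R68CP

open Finset Matrix Polynomial

lemma aux_pb {R S : Type*} [CommRing R] [IsDomain R] [CommRing S] [Algebra R S]
    (pb : PowerBasis R S) (g : R[X]) (m : ℕ)
    (hm : pb.dim = m) (hg : g.Monic) (hgd : g.natDegree = m)
    (hdvd : aeval pb.gen (minpoly R pb.gen) = 0 → g ∣ minpoly R pb.gen) (hd : 1 < m) :
    ∃ C : Matrix (Fin m) (Fin m) R, C.charpoly = g ∧ C ⟨1, hd⟩ ⟨0, by omega⟩ = 1 := by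
  subst hm
  refine ⟨Algebra.leftMulMatrix pb.basis pb.gen, ?_, ?_⟩
  · have h1 : (Algebra.leftMulMatrix pb.basis pb.gen).charpoly = minpoly R pb.gen :=
      charpoly_leftMulMatrix pb
    have h3 : g ∣ (Algebra.leftMulMatrix pb.basis pb.gen).charpoly := by
      rw [h1]; exact hdvd (minpoly.aeval _ _)
    refine Polynomial.eq_of_monic_of_dvd_of_natDegree_le hg (charpoly_monic _) h3 ?_
    rw [charpoly_natDegree_eq_dim, Fintype.card_fin, hgd]
  · rw [Algebra.leftMulMatrix_eq_repr_mul]
    have h1 : pb.gen * pb.basis ⟨0, by omega⟩ = pb.basis ⟨1, by omega⟩ := by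
      rw [pb.basis_eq_pow, pb.basis_eq_pow]
      simp
    rw [h1, Module.Basis.repr_self]
    simp

/-- A monic integer polynomial of degree at least two is the characteristic polynomial of an
integer matrix with entry `(1,0)` equal to `1`. -/
lemma exists_companion_aux (g : ℤ[X]) (hg : g.Monic) (hd : 1 < g.natDegree) :
    ∃ C : Matrix (Fin g.natDegree) (Fin g.natDegree) ℤ, C.charpoly = g ∧
      C ⟨1, hd⟩ ⟨0, by omega⟩ = 1 := by
  refine aux_pb (AdjoinRoot.powerBasis' hg) g g.natDegree rfl hg rfl ?_ hd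
  intro h
  rw [← AdjoinRoot.mk_eq_zero, ← AdjoinRoot.aeval_eq]
  exact h

lemma exists_companion {n : ℕ} (A : Matrix (Fin (n + 2)) (Fin (n + 2)) ℤ) :
    ∃ C : Matrix (Fin (n + 2)) (Fin (n + 2)) ℤ, C.charpoly = A.charpoly ∧ C 1 0 = 1 := by
  have hdeg : A.charpoly.natDegree = n + 2 := by
    rw [charpoly_natDegree_eq_dim, Fintype.card_fin]
  obtain ⟨C, h1, h2⟩ := exists_companion_aux A.charpoly (charpoly_monic A) (by omega)
  refine ⟨C.reindex (finCongr hdeg) (finCongr hdeg), ?_, ?_⟩
  · rw [charpoly_reindex, h1]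
  · rw [← h2]
    simp only [reindex_apply, submatrix_apply]
    congr 1

/-- The trace depends on the characteristic polynomial only. -/
lemma trace_eq_of_charpoly {n : ℕ} {A C : Matrix (Fin (n + 2)) (Fin (n + 2)) ℤ}
    (h : C.charpoly = A.charpoly) : C.trace = A.trace := by
  rw [trace_eq_neg_charpoly_coeff, trace_eq_neg_charpoly_coeff, h]

lemma eval_charpoly_smul {n : ℕ} (A : Matrix (Fin n) (Fin n) ℤ) (k t : ℤ) :
    (k • A).charpoly.eval (k * t) = k ^ n * A.charpoly.eval t := by
  rw [Matrix.eval_charpoly, Matrix.eval_charpoly]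
  have h : Matrix.scalar (Fin n) (k * t) - k • A = k • (Matrix.scalar (Fin n) t - A) := by
    ext i j
    simp only [scalar_apply, Matrix.sub_apply, Matrix.smul_apply, smul_eq_mul, diagonal_apply]
    split_ifs <;> ring
  rw [h, det_smul, Fintype.card_fin]

lemma charpoly_smul_congr {n : ℕ} {A C : Matrix (Fin n) (Fin n) ℤ}
    (h : C.charpoly = A.charpoly) (k : ℤ) (hk : k ≠ 0) :
    (k • C).charpoly = (k • A).charpoly := by
  refine Polynomial.eq_of_infinite_eval_eq _ _ ?_
  refine Set.Infinite.mono ?_ (Set.infinite_range_of_injective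
    (f := fun t : ℤ => k * t) (fun a b hab => mul_left_cancel₀ hk hab))
  rintro _ ⟨t, rfl⟩
  simp only [Set.mem_ofPred_eq]
  rw [eval_charpoly_smul, eval_charpoly_smul, h]

lemma charpoly_conj {n : ℕ} (g g' A : Matrix (Fin n) (Fin n) ℤ) (h : g' * g = 1) :
    (g * A * g').charpoly = A.charpoly := by
  rw [Matrix.charpoly_mul_comm, ← mul_assoc, h, one_mul]

end R68CP
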