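import Mathlib

/-!
# Finite Fourier analysis: a difference set meets a family
(proof by helper93, formalization by helper68)
-/

namespace R68CP

open Finset

section

variable {G : Type*} [AddCommGroup G] [Fintype G] [DecidableEq G]

/-- Fourier mass of a finite set at a character. -/
noncomputable def mass (S : Finset G) (ψ : AddChar G ℂ) : ℝ := ‖∑ x ∈ S, ψ x‖ ^ 2

omit [DecidableEq G] in
lemma mass_nonneg (S : Finset G) (ψ : AddChar G ℂ) : 0 ≤ mass S ψ := by
  unfold mass; positivity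

omit [DecidableEq G] in
lemma mass_zero (S : Finset G) : mass S (0 : AddChar G ℂ) = (#S : ℝ) ^ 2 := by
  simp [mass]

omit [DecidableEq G] in
lemma mass_eq (S : Finset G) (ψ : AddChar G ℂ) :
    (mass S ψ : ℂ) = ∑ x ∈ S, ∑ y ∈ S, ψ (x - y) := by
  have h : (mass S ψ : ℂ) = ((‖∑ x ∈ S, ψ x‖ : ℂ)) ^ 2 := by
    unfold mass; push_cast; rfl
  rw [h, ← Complex.mul_conj', map_sum, sum_mul_sum]
  refine sum_congr rfl fun x _ => sum_congr rfl fun y _ => ?_
  rw [sub_eq_add_neg, AddChar.map_add_eq_mul, AddChar.map_neg_eq_conj]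

lemma sum_mass_mul (S : Finset G) (b : G) :
    ∑ ψ : AddChar G ℂ, (mass S ψ : ℂ) * ψ b
      = (Fintype.card G : ℂ) * #{p ∈ S ×ˢ S | p.1 - p.2 + b = 0} := by
  have h1 : ∀ ψ : AddChar G ℂ, (mass S ψ : ℂ) * ψ b = ∑ p ∈ S ×ˢ S, ψ (p.1 - p.2 + b) := by
    intro ψ
    rw [mass_eq, sum_product, sum_mul]
    refine sum_congr rfl fun x _ => ?_
    rw [sum_mul]
    refine sum_congr rfl fun y _ => ?_
    rw [AddChar.map_add_eq_mul]
  rw [sum_congr rfl fun ψ _ => h1 ψ, sum_comm]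
  simp_rw [AddChar.sum_apply_eq_ite]
  rw [← sum_filter, sum_const, nsmul_eq_mul, mul_comm]

lemma sum_mass (S : Finset G) :
    ∑ ψ : AddChar G ℂ, mass S ψ = Fintype.card G * #S := by
  have h := sum_mass_mul S (0 : G)
  simp only [AddChar.map_zero_eq_one, mul_one, add_zero, sub_eq_zero] at h
  have h2 : #{p ∈ S ×ˢ S | p.1 = p.2} = #S := by
    have : ({p ∈ S ×ˢ S | p.1 = p.2} : Finset (G × G)) = S.image (fun x => (x, x)) := by
      ext ⟨x, y⟩
      simp only [mem_filter, mem_product, mem_image, Prod.mk.injEq]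
      constructor
      · rintro ⟨⟨hx, hy⟩, rfl⟩
        exact ⟨x, hx, rfl, rfl⟩
      · rintro ⟨z, hz, rfl, rfl⟩
        exact ⟨⟨hz, hz⟩, rfl⟩
    rw [this, card_image_of_injective]
    intro x y hxy
    simpa using hxy
  rw [h2] at h
  exact_mod_cast h

/-- The finite form of the main estimate. -/
lemma main_finite {W : Type*} [Fintype W] [Nonempty W] (S : Finset G) (B : W → G)
    (β ε : ℝ) (hβ : 0 < β) (hε : ε = β ^ 2 / 8)
    (hS : β * Fintype.card G ≤ #S)
    (X Y : Finset (AddChar G ℂ)) (h0 : (0 : AddChar G ℂ) ∈ X)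
    (hX : ∀ ψ ∈ X, ∀ w, ‖ψ (B w) - 1‖ ≤ 1 / 4)
    (hY : ∀ ψ, ψ ∉ Y → ‖∑ w, ψ (B w)‖ ≤ 2 * ε * Fintype.card W)
    (hXY : ∑ ψ ∈ Y \ X, mass S ψ ≤ β ^ 2 / 8 * (Fintype.card G : ℝ) ^ 2) :
    ∃ w, ∃ x ∈ S, ∃ y ∈ S, x - y = B w := by
  classical
  by_contra hcon
  push Not at hcon
  have hz : ∀ w, ∑ ψ : AddChar G ℂ, (mass S ψ : ℂ) * ψ (B w) = 0 := by
    intro w
    rw [sum_mass_mul]
    have : ({p ∈ S ×ˢ S | p.1 - p.2 + B w = 0} : Finset (G × G)) = ∅ := by
      rw [filter_eq_empty_iff]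
      rintro ⟨x, y⟩ hp he
      rw [mem_product] at hp
      refine hcon w y hp.2 x hp.1 ?_
      simp only at he
      have : B w = -(x - y) := eq_neg_of_add_eq_zero_right he
      rw [this]; abel
    rw [this]; simp
  have hsum : ∑ ψ : AddChar G ℂ, mass S ψ * (∑ w, ψ (B w)).re = 0 := by
    have h1 : ∑ ψ : AddChar G ℂ, (mass S ψ : ℂ) * (∑ w, ψ (B w)) = 0 := by
      simp_rw [mul_sum]
      rw [sum_comm]
      exact sum_eq_zero fun w _ => hz w
    have h2 := congrArg Complex.re h1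
    rw [Complex.re_sum] at h2
    simpa using h2
  set N : ℝ := (Fintype.card W : ℝ) with hN
  have hNpos : 0 < N := by rw [hN]; exact_mod_cast Fintype.card_pos
  have hGpos : (0 : ℝ) < Fintype.card G := by exact_mod_cast Fintype.card_pos
  have hεnn : 0 < ε := by rw [hε]; positivity
  -- pointwise lower bound
  have hpt : ∀ ψ : AddChar G ℂ,
      N * ((if ψ = 0 then 3 / 4 else 0) - (if ψ ∈ Y \ X then 1 else 0) - 2 * ε)
        ≤ (∑ w, ψ (B w)).re := by
    intro ψ
    by_cases hx : ψ ∈ X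
    · have h1 : N * (3 / 4) ≤ (∑ w, ψ (B w)).re := by
        rw [Complex.re_sum]
        have : N * (3 / 4) = ∑ w : W, (3 / 4 : ℝ) := by simp [hN]
        rw [this]
        refine sum_le_sum fun w _ => ?_
        have h2 := hX ψ hx w
        have h3 := Complex.abs_re_le_norm (ψ (B w) - 1)
        rw [Complex.sub_re, Complex.one_re] at h3
        have h4 := abs_le.1 (h3.trans h2)
        linarith [h4.1]
      refine le_trans ?_ h1
      have h5 : ψ ∉ Y \ X := by simp [hx]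
      simp only [h5, if_false]
      apply mul_le_mul_of_nonneg_left _ hNpos.le
      split_ifs <;> linarith
    · have hne : ψ ≠ 0 := fun h => hx (h ▸ h0)
      simp only [hne, if_false]
      by_cases hy : ψ ∈ Y
      · have h5 : ψ ∈ Y \ X := by simp [hx, hy]
        simp only [h5, if_true]
        have h6 : ‖∑ w, ψ (B w)‖ ≤ N := by
          refine (norm_sum_le _ _).trans ?_
          simp [hN]
        have h7 := (abs_le.1 (Complex.abs_re_le_norm (∑ w, ψ (B w)))).1
        nlinarith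
      · have h5 : ψ ∉ Y \ X := by simp [hy]
        simp only [h5, if_false]
        have h6 := hY ψ hy
        have h7 := (abs_le.1 (Complex.abs_re_le_norm (∑ w, ψ (B w)))).1
        nlinarith
  have hlow : N * (3 / 4 * (#S : ℝ) ^ 2 - ∑ ψ ∈ Y \ X, mass S ψ
      - 2 * ε * (Fintype.card G * #S)) ≤ 0 := by
    rw [← hsum]
    calc _ = ∑ ψ : AddChar G ℂ, mass S ψ *
          (N * ((if ψ = 0 then 3 / 4 else 0) - (if ψ ∈ Y \ X then 1 else 0) - 2 * ε)) := by
          have e1 : ∑ ψ : AddChar G ℂ, mass S ψ * (if ψ = 0 then (3 / 4 : ℝ) else 0)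
              = 3 / 4 * (#S : ℝ) ^ 2 := by
            simp only [mul_ite, mul_zero, sum_ite_eq', mem_univ, if_true]
            rw [mass_zero]; ring
          have e2 : ∑ ψ : AddChar G ℂ, mass S ψ * (if ψ ∈ Y \ X then (1 : ℝ) else 0)
              = ∑ ψ ∈ Y \ X, mass S ψ := by
            simp only [mul_ite, mul_zero, mul_one]
            rw [sum_ite_mem, univ_inter]
          rw [← e1, ← e2, ← sum_mass S, mul_sum, ← sum_sub_distrib, ← sum_sub_distrib, mul_sum]
          refine sum_congr rfl fun ψ _ => ?_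
          ring
      _ ≤ _ := by
          refine sum_le_sum fun ψ _ => ?_
          exact mul_le_mul_of_nonneg_left (hpt ψ) (mass_nonneg S ψ)
  have hSle : (#S : ℝ) ≤ Fintype.card G := by exact_mod_cast card_le_univ S
  have hfin : 0 < 3 / 4 * (#S : ℝ) ^ 2 - ∑ ψ ∈ Y \ X, mass S ψ
      - 2 * ε * (Fintype.card G * #S) := by
    have h1 : β ^ 2 * (Fintype.card G : ℝ) ^ 2 ≤ (#S : ℝ) ^ 2 := by
      rw [← mul_pow]; gcongr
    have h2 : 2 * ε * (Fintype.card G * #S) ≤ β ^ 2 / 4 * (Fintype.card G : ℝ) ^ 2 := by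
      rw [hε]
      have : (Fintype.card G : ℝ) * #S ≤ (Fintype.card G : ℝ) ^ 2 := by
        rw [sq]; gcongr
      calc 2 * (β ^ 2 / 8) * (Fintype.card G * #S : ℝ)
          ≤ 2 * (β ^ 2 / 8) * (Fintype.card G : ℝ) ^ 2 := by gcongr
        _ = _ := by ring
    have h3 : 0 < β ^ 2 * (Fintype.card G : ℝ) ^ 2 := by positivity
    linarith
  nlinarith

omit [DecidableEq G] in
/-- Pigeonhole on masses of an increasing chain of sets of characters. -/
lemma exists_small_step (S : Finset G) (X : ℕ → Finset (AddChar G ℂ)) (J : ℕ) (hJ : 0 < J)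
    (hmono : ∀ j < J, X j ⊆ X (j + 1)) :
    ∃ j < J, ∑ ψ ∈ X (j + 1) \ X j, mass S ψ ≤ (Fintype.card G : ℝ) ^ 2 / J := by
  classical
  by_contra hcon
  push Not at hcon
  have h1 : ∑ j ∈ range J, (Fintype.card G : ℝ) ^ 2 / J
      < ∑ j ∈ range J, ∑ ψ ∈ X (j + 1) \ X j, mass S ψ := by
    refine sum_lt_sum_of_nonempty ⟨0, by simpa using hJ⟩ ?_
    intro j hj
    exact hcon j (mem_range.1 hj)
  have h2 : ∑ j ∈ range J, ∑ ψ ∈ X (j + 1) \ X j, mass S ψ
      = ∑ ψ ∈ X J, mass S ψ - ∑ ψ ∈ X 0, mass S ψ := by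
    rw [← sum_range_sub (fun j => ∑ ψ ∈ X j, mass S ψ)]
    refine sum_congr rfl fun j hj => ?_
    rw [← sum_sdiff (hmono j (mem_range.1 hj))]
    ring
  have h3 : ∑ ψ ∈ X J, mass S ψ ≤ (Fintype.card G : ℝ) ^ 2 := by
    calc _ ≤ ∑ ψ : AddChar G ℂ, mass S ψ :=
          sum_le_sum_of_subset_of_nonneg (subset_univ _) fun ψ _ _ => mass_nonneg S ψ
      _ = Fintype.card G * #S := sum_mass S
      _ ≤ _ := by
          rw [sq]
          gcongr
          exact card_le_univ S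
  have h4 : 0 ≤ ∑ ψ ∈ X 0, mass S ψ := sum_nonneg fun ψ _ => mass_nonneg S ψ
  rw [h2, sum_const, card_range, nsmul_eq_mul] at h1
  have h5 : (J : ℝ) * ((Fintype.card G : ℝ) ^ 2 / J) = (Fintype.card G : ℝ) ^ 2 := by
    have : (J : ℝ) ≠ 0 := by exact_mod_cast hJ.ne'
    field_simp
  linarith

end

end R68CP
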