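import Pool.Agent.R68.CP.Weyl
import Pool.Agent.R68.CP.Fourier

/-!
# The uniform twisted recurrence statement
(proof by helper93, formalization by helper68)
-/

namespace R68CP

open Finset

section chars

variable {A : Type*} [AddCommGroup A]

lemma chi_neg (χ : AddChar A ℂ) (h1 : ∀ x, ‖χ x‖ = 1) (y : A) :
    ‖χ (-y) - 1‖ = ‖χ y - 1‖ := by
  have h : χ (-y) - 1 = - (χ (-y) * (χ y - 1)) := by
    rw [mul_sub, ← AddChar.map_add_eq_mul]
    simp
  rw [h, norm_neg, norm_mul, h1, one_mul]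

lemma chi_add (χ : AddChar A ℂ) (h1 : ∀ x, ‖χ x‖ = 1) (x y : A) :
    ‖χ (x + y) - 1‖ ≤ ‖χ x - 1‖ + ‖χ y - 1‖ := by
  have h : χ (x + y) - 1 = χ x * (χ y - 1) + (χ x - 1) := by
    rw [AddChar.map_add_eq_mul]; ring
  rw [h]
  refine (norm_add_le _ _).trans ?_
  rw [norm_mul, h1, one_mul, add_comm]

lemma chi_nsmul (χ : AddChar A ℂ) (h1 : ∀ x, ‖χ x‖ = 1) (n : ℕ) (x : A) :
    ‖χ (n • x) - 1‖ ≤ n * ‖χ x - 1‖ := by
  rw [AddChar.map_nsmul_eq_pow]
  exact norm_pow_sub_one_le (h1 x) n

lemma chi_zsmul (χ : AddChar A ℂ) (h1 : ∀ x, ‖χ x‖ = 1) (m : ℤ) (x : A) :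
    ‖χ (m • x) - 1‖ ≤ (|m| : ℤ) * ‖χ x - 1‖ := by
  obtain ⟨n, rfl | rfl⟩ := Int.eq_nat_or_neg m
  · have := chi_nsmul χ h1 n x
    simpa using this
  · have := chi_nsmul χ h1 n x
    rw [neg_smul, chi_neg χ h1]
    simpa using this

lemma chi_sum {κ : Type*} (χ : AddChar A ℂ) (h1 : ∀ x, ‖χ x‖ = 1) (Z : Finset κ) (f : κ → A) :
    ‖χ (∑ t ∈ Z, f t) - 1‖ ≤ ∑ t ∈ Z, ‖χ (f t) - 1‖ := by
  classical
  induction Z using Finset.induction_on with
  | empty => simp
  | insert a Z ha ih =>
    rw [sum_insert ha, sum_insert ha]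
    refine (chi_add χ h1 _ _).trans ?_
    gcongr

end chars

lemma exists_seq (R : ℕ → ℝ → ℝ → ℕ → Prop)
    (h : ∀ j δ, 0 < δ → ∃ δ' L, 0 < δ' ∧ R j δ δ' L) (J : ℕ) :
    ∀ δ0 : ℝ, 0 < δ0 → ∃ δ : ℕ → ℝ, ∃ L : ℕ → ℕ, δ J = δ0 ∧ (∀ j ≤ J, 0 < δ j) ∧
      ∀ j < J, R j (δ (j + 1)) (δ j) (L j) := by
  induction J with
  | zero =>
    intro δ0 h0
    exact ⟨fun _ => δ0, fun _ => 0, rfl, fun _ _ => h0, fun j hj => absurd hj (by omega)⟩
  | succ J ih =>
    intro δ0 h0
    obtain ⟨δ', L', hδ', hR⟩ := h J δ0 h0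
    obtain ⟨δ, L, e1, e2, e3⟩ := ih δ' hδ'
    refine ⟨Function.update δ (J + 1) δ0, Function.update L J L', by simp, ?_, ?_⟩
    · intro j hj
      by_cases hj' : j = J + 1
      · subst hj'; simpa using h0
      · rw [Function.update_of_ne hj']
        exact e2 j (by omega)
    · intro j hj
      by_cases hj' : j = J
      · subst hj'
        rw [Function.update_self, Function.update_self, Function.update_of_ne (by omega), e1]
        exact hR
      · rw [Function.update_of_ne (by omega), Function.update_of_ne (by omega),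
          Function.update_of_ne hj']
        exact e3 j (by omega)

section box

variable {ι : Type*} [Fintype ι] [DecidableEq ι]

/-- Reduction homomorphism. -/
def red (m : ι → ℕ) : (ι → ℤ) →+ (∀ i, ZMod (m i)) where
  toFun x i := (x i : ZMod (m i))
  map_zero' := by ext i; simp
  map_add' x y := by ext i; simp

omit [Fintype ι] [DecidableEq ι] in
lemma red_apply (m : ι → ℕ) (x : ι → ℤ) (i : ι) : red m x i = (x i : ZMod (m i)) := rfl

lemma box_group (α : ℝ) (hα : 0 < α) (E : Set (ι → ℤ))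
    (hE : ∀ N : ℕ, ∃ a b : ι → ℤ, (∀ i, a i + N ≤ b i) ∧
        α / 2 * ∏ i, ((b i - a i : ℤ) : ℝ) ≤ ((E ∩ {x | ∀ i, a i ≤ x i ∧ x i < b i}).ncard : ℝ))
    (R : ℕ) :
    ∃ m : ι → ℕ, (∀ i, m i ≠ 0) ∧ ∃ S : Finset (∀ i, ZMod (m i)),
      α / 4 * ∏ i, (m i : ℝ) ≤ #S ∧
      ∀ B : ι → ℤ, (∀ i, |B i| ≤ R) → (∃ x ∈ S, ∃ y ∈ S, x - y = red m B) →
        ∃ x ∈ E, ∃ y ∈ E, x - y = B := by
  classical
  set N : ℕ := 2 * Fintype.card ι * (R + 1) + 1 with hN
  obtain ⟨a, b, hab, hdens⟩ := hE N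
  have hlen : ∀ i, (0 : ℤ) < b i - a i := by
    intro i
    have := hab i
    have h2 : (1 : ℤ) ≤ N := by rw [hN]; push_cast; nlinarith [Int.natCast_nonneg (Fintype.card ι * (R + 1))]
    linarith
  set m : ι → ℕ := fun i => (b i - a i + R + 1).toNat with hm
  have hmi : ∀ i, (m i : ℤ) = b i - a i + R + 1 := by
    intro i
    have := hlen i
    simp only [hm]
    rw [Int.toNat_of_nonneg]
    have : (0 : ℤ) ≤ R := Int.natCast_nonneg R
    linarith
  have hm0 : ∀ i, m i ≠ 0 := by
    intro i h0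
    have h1 := hmi i
    rw [h0] at h1
    have := hlen i
    have : (0 : ℤ) ≤ R := Int.natCast_nonneg R
    push_cast at h1
    linarith
  set T : Set (ι → ℤ) := E ∩ {x | ∀ i, a i ≤ x i ∧ x i < b i} with hT
  have hTfin : T.Finite := by
    refine Set.Finite.subset (Set.finite_Icc a b) ?_
    rintro x ⟨_, hx⟩
    exact ⟨fun i => (hx i).1, fun i => (hx i).2.le⟩
  have hinj : Set.InjOn (red m) T := by
    intro x hx y hy hxy
    ext i
    have h1 := congrFun hxy i
    rw [red_apply, red_apply, ZMod.intCast_eq_intCast_iff_dvd_sub] at h1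
    have h2 := Int.eq_zero_of_abs_lt_dvd h1 (by
      rw [hmi i, abs_lt]
      have a1 := hx.2 i
      have a2 := hy.2 i
      have : (0 : ℤ) ≤ R := Int.natCast_nonneg R
      constructor <;> linarith)
    linarith
  refine ⟨m, hm0, hTfin.toFinset.image (red m), ?_, ?_⟩
  · have hcard : #(hTfin.toFinset.image (red m)) = T.ncard := by
      rw [card_image_of_injOn, Set.ncard_eq_toFinset_card T hTfin]
      simpa using hinj
    rw [hcard]
    refine le_trans ?_ hdens
    have hmr : ∀ i, ((b i - a i : ℤ) : ℝ) = m i - (R + 1) := by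
      intro i
      have h1 := hmi i
      have h2 : ((m i : ℤ) : ℝ) = ((b i - a i + R + 1 : ℤ) : ℝ) := by rw [h1]
      push_cast at h2 ⊢
      linarith
    set x : ℝ := (R + 1) / N with hx
    have hNpos : (0 : ℝ) < N := by rw [hN]; push_cast; positivity
    have hx0 : 0 ≤ x := by positivity
    have hR : (0 : ℝ) ≤ R := Nat.cast_nonneg R
    have hnx : (Fintype.card ι : ℝ) * x ≤ 1 / 2 := by
      rw [hx, ← mul_div_assoc, div_le_iff₀ hNpos, hN]
      push_cast
      nlinarith
    have hNle : (R + 1 : ℝ) ≤ N ∨ Fintype.card ι = 0 := by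
      rcases Nat.eq_zero_or_pos (Fintype.card ι) with h0 | h0
      · exact Or.inr h0
      · left
        rw [hN]
        have h1 : (1 : ℝ) ≤ Fintype.card ι := by exact_mod_cast h0
        push_cast
        nlinarith
    have hprod : (1 / 2 : ℝ) * ∏ i, (m i : ℝ) ≤ ∏ i, ((b i - a i : ℤ) : ℝ) := by
      rcases hNle with hNle | h0
      · have hx1 : x ≤ 1 := by
          rw [hx, div_le_one hNpos]; exact hNle
        calc (1 / 2 : ℝ) * ∏ i, (m i : ℝ) ≤ (1 - x) ^ (Fintype.card ι) * ∏ i, (m i : ℝ) := by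
              gcongr
              have := one_add_mul_le_pow (a := -x) (by linarith) (Fintype.card ι)
              have e : (1 + -x) = 1 - x := by ring
              rw [e] at this
              linarith
          _ = ∏ i : ι, ((1 - x) * (m i : ℝ)) := by
              rw [prod_mul_distrib, prod_const, card_univ]
          _ ≤ ∏ i, ((b i - a i : ℤ) : ℝ) := by
              refine prod_le_prod (fun i _ => mul_nonneg (by linarith) (Nat.cast_nonneg _)) ?_
              intro i _
              rw [hmr i]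
              have h1 : (N : ℝ) ≤ m i := by
                have h2 := hab i
                have h3 : (N : ℤ) ≤ m i := by
                  rw [hmi i]
                  have : (0 : ℤ) ≤ R := Int.natCast_nonneg R
                  linarith
                exact_mod_cast h3
              have h4 : (R + 1 : ℝ) ≤ x * m i := by
                rw [hx, div_mul_eq_mul_div, le_div_iff₀ hNpos]
                gcongr
              linarith
      · have : IsEmpty ι := Fintype.card_eq_zero_iff.1 h0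
        simp
        norm_num
    have := mul_le_mul_of_nonneg_left hprod (show (0 : ℝ) ≤ α / 2 by positivity)
    calc α / 4 * ∏ i, (m i : ℝ) = α / 2 * (1 / 2 * ∏ i, (m i : ℝ)) := by ring
      _ ≤ _ := this
  · rintro B hB ⟨x', hx', y', hy', hxy⟩
    rw [mem_image] at hx' hy'
    obtain ⟨x, hx, rfl⟩ := hx'
    obtain ⟨y, hy, rfl⟩ := hy'
    rw [Set.Finite.mem_toFinset] at hx hy
    refine ⟨x, hx.1, y, hy.1, ?_⟩
    ext i
    have h1 := congrFun hxy i
    rw [Pi.sub_apply, red_apply, red_apply, red_apply, ← Int.cast_sub,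
      ZMod.intCast_eq_intCast_iff_dvd_sub] at h1
    have h2 := Int.eq_zero_of_abs_lt_dvd h1 (by
      rw [hmi i, abs_lt]
      have a1 := hx.2 i
      have a2 := hy.2 i
      have a3 := abs_le.1 (hB i)
      constructor <;> linarith)
    rw [Pi.sub_apply]
    linarith

end box

end R68CP
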