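import Pool.Agent.R68.CP.Span

/-!
# Large subfamilies span the trace zero matrices
(proof by helper93, formalization by helper68)
-/

namespace R68CP

open Finset Matrix

/-- The `n = d^2 - 1` coordinate positions: all entries except the last diagonal one. -/
abbrev Coord (d : ℕ) : Type := {p : Fin d × Fin d // ¬ (p.1.val + 1 = d ∧ p.2.val + 1 = d)}

/-- coordinates of a matrix -/
def co {d : ℕ} {R : Type*} (A : Matrix (Fin d) (Fin d) R) : Coord d → R := fun p => A p.1.1 p.1.2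

/-- extend a functional on the coordinates by zero to a matrix -/
noncomputable def ext0 {d : ℕ} (ξ : Coord d → ℚ) : Matrix (Fin d) (Fin d) ℚ :=
  Matrix.of fun i j => if h : ¬ (i.val + 1 = d ∧ j.val + 1 = d) then ξ ⟨(i, j), h⟩ else 0

lemma ext0_coord {d : ℕ} (ξ : Coord d → ℚ) (p : Coord d) : ext0 ξ p.1.1 p.1.2 = ξ p := by
  have hp := p.2
  simp only [ext0, of_apply]
  rw [dif_pos hp]

lemma ext0_zero {d : ℕ} (ξ : Coord d → ℚ) (i j : Fin d) (h : i.val + 1 = d ∧ j.val + 1 = d) :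
    ext0 ξ i j = 0 := by
  simp only [ext0, of_apply]
  rw [dif_neg (not_not.2 h)]

lemma sum_ext0 {d : ℕ} (ξ : Coord d → ℚ) (M : Matrix (Fin d) (Fin d) ℚ) :
    ∑ i, ∑ j, ext0 ξ i j * M i j = ∑ p : Coord d, ξ p * co M p := by
  classical
  have h1 : ∑ i, ∑ j, ext0 ξ i j * M i j
      = ∑ x : Fin d × Fin d, ext0 ξ x.1 x.2 * M x.1 x.2 := by
    rw [Fintype.sum_prod_type]
  have h2 : ∑ p : Coord d, ξ p * co M p
      = ∑ p : Coord d, (fun x : Fin d × Fin d => ext0 ξ x.1 x.2 * M x.1 x.2) p.1 := by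
    refine sum_congr rfl fun p _ => ?_
    simp only [ext0_coord]
    rfl
  rw [h1, h2]
  rw [← Finset.sum_subtype (p := fun p : Fin d × Fin d => ¬ (p.1.val + 1 = d ∧ p.2.val + 1 = d))
    (univ.filter fun p : Fin d × Fin d => ¬ (p.1.val + 1 = d ∧ p.2.val + 1 = d))
    (by intro x; simp) (fun x : Fin d × Fin d => ext0 ξ x.1 x.2 * M x.1 x.2)]
  rw [sum_filter]
  refine sum_congr rfl fun x _ => ?_
  split_ifs with h
  · rw [ext0_zero ξ x.1 x.2 h, zero_mul]
  · rfl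

/-- the polynomial of a matrix -/
noncomputable def pF {n : ℕ} (Ξ : Matrix (Fin (n + 2)) (Fin (n + 2)) ℚ) :
    MvPolynomial (Fin ((n + 2) + (n + 2))) ℚ :=
  ∑ i, ∑ j, MvPolynomial.C (Ξ i j) * (xx MvPolynomial.X i * yy MvPolynomial.X j)

/-- a degree bound independent of the matrix -/
noncomputable def degB (n : ℕ) : ℕ :=
  univ.sup fun i : Fin (n + 2) => univ.sup fun j : Fin (n + 2) =>
    (xx (MvPolynomial.X : Fin ((n + 2) + (n + 2)) → MvPolynomial (Fin ((n + 2) + (n + 2))) ℚ) i *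
      yy MvPolynomial.X j).totalDegree

lemma totalDegree_pF {n : ℕ} (Ξ : Matrix (Fin (n + 2)) (Fin (n + 2)) ℚ) :
    (pF Ξ).totalDegree ≤ degB n := by
  unfold pF
  refine (MvPolynomial.totalDegree_finsetSum _ _).trans (Finset.sup_le fun i _ => ?_)
  refine (MvPolynomial.totalDegree_finsetSum _ _).trans (Finset.sup_le fun j _ => ?_)
  refine (MvPolynomial.totalDegree_mul _ _).trans ?_
  rw [MvPolynomial.totalDegree_C, zero_add]
  unfold degB
  exact le_trans (Finset.le_sup (f := fun j : Fin (n + 2) =>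
    (xx (MvPolynomial.X : Fin ((n + 2) + (n + 2)) → MvPolynomial (Fin ((n + 2) + (n + 2))) ℚ) i *
      yy MvPolynomial.X j).totalDegree) (mem_univ j))
    (Finset.le_sup (f := fun i : Fin (n + 2) => univ.sup fun j : Fin (n + 2) =>
    (xx (MvPolynomial.X : Fin ((n + 2) + (n + 2)) → MvPolynomial (Fin ((n + 2) + (n + 2))) ℚ) i *
      yy MvPolynomial.X j).totalDegree) (mem_univ i))

lemma eval_pF {n : ℕ} (Ξ : Matrix (Fin (n + 2)) (Fin (n + 2)) ℚ)
    (a : Fin ((n + 2) + (n + 2)) → ℚ) :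
    MvPolynomial.eval a (pF Ξ) = ∑ i, ∑ j, Ξ i j * (vecMulVec (xx a) (yy a)) i j := by
  unfold pF
  rw [map_sum]
  refine sum_congr rfl fun i _ => ?_
  rw [map_sum]
  refine sum_congr rfl fun j _ => ?_
  rw [map_mul, map_mul, MvPolynomial.eval_C, map_xx, map_yy, vecMulVec_apply]
  simp only [MvPolynomial.eval_X]

lemma sum_vecMulVec {m : ℕ} (Ξ : Matrix (Fin m) (Fin m) ℚ) (x y : Fin m → ℚ) :
    ∑ i, ∑ j, Ξ i j * (vecMulVec x y) i j = x ⬝ᵥ Ξ *ᵥ y := by
  simp only [dotProduct, mulVec, vecMulVec_apply, mul_sum]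
  refine sum_congr rfl fun i _ => sum_congr rfl fun j _ => ?_
  ring

lemma pF_ne_zero {n : ℕ} (Ξ : Matrix (Fin (n + 2)) (Fin (n + 2)) ℚ) (h0 : Ξ ≠ 0)
    (hlast : Ξ (Fin.last (n + 1)) (Fin.last (n + 1)) = 0) : pF Ξ ≠ 0 := by
  intro h
  apply h0
  apply scalar_of_vanish Ξ ?_ hlast
  intro a
  rw [← sum_vecMulVec, ← eval_pF, h, map_zero]

/-- the integer parameter attached to an element of the grid -/
def par {m K : ℕ} (t : Fin m → Fin K) : Fin m → ℤ := fun k => ((t k : ℕ) : ℤ)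

/-- the coordinate vectors of the family -/
def vv {n K : ℕ} (t : Fin ((n + 2) + (n + 2)) → Fin K) : Coord (n + 2) → ℤ :=
  co (vecMulVec (xx (par t)) (yy (par t)))

lemma vv_cast {n K : ℕ} (t : Fin ((n + 2) + (n + 2)) → Fin K) (p : Coord (n + 2)) :
    ((vv t p : ℤ) : ℚ) = co (vecMulVec (xx (fun k => ((t k : ℕ) : ℚ)))
      (yy (fun k => ((t k : ℕ) : ℚ)))) p := by
  unfold vv co
  rw [vecMulVec_apply, vecMulVec_apply]
  push_cast
  have h1 := map_xx (Int.castRingHom ℚ) (par t) p.1.1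
  have h2 := map_yy (Int.castRingHom ℚ) (par t) p.1.2
  simp only [Int.coe_castRingHom] at h1 h2
  rw [h1, h2]
  simp only [par, Int.cast_natCast]

theorem large_spans (n : ℕ) (ε : ℝ) (K : ℕ) (hK1 : 1 ≤ K) (hK : (degB n : ℝ) ≤ ε * K)
    (Z : Finset (Fin ((n + 2) + (n + 2)) → Fin K))
    (hZ : ε * Fintype.card (Fin ((n + 2) + (n + 2)) → Fin K) < #Z) (p : Coord (n + 2)) :
    ∃ c : (Fin ((n + 2) + (n + 2)) → Fin K) → ℚ,
      ∑ t ∈ Z, c t • (fun q => ((vv t q : ℤ) : ℚ)) = (Pi.single p 1 : Coord (n + 2) → ℚ) := by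
  classical
  rw [← Submodule.mem_span_image_finset_iff_exists_fun' (R := ℚ)
    (v := fun t : Fin ((n + 2) + (n + 2)) → Fin K => fun q => ((vv t q : ℤ) : ℚ))]
  by_contra hp
  obtain ⟨f, hf, hf'⟩ := Submodule.exists_dual_map_eq_bot_of_notMem hp inferInstance
  set ξ : Coord (n + 2) → ℚ := fun q => f (Pi.single q 1) with hξ
  have hfx : ∀ x, f x = ∑ q, ξ q * x q := by
    intro x
    conv_lhs => rw [pi_eq_sum_univ' x]
    rw [map_sum]
    refine sum_congr rfl fun q _ => ?_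
    rw [map_smul, smul_eq_mul, mul_comm]
  have hΞ0 : ext0 ξ ≠ 0 := by
    intro h
    apply hf
    rw [hfx]
    refine sum_eq_zero fun q _ => ?_
    rw [← ext0_coord ξ q, h]
    simp
  have hlast : ext0 ξ (Fin.last (n + 1)) (Fin.last (n + 1)) = 0 := by
    apply ext0_zero
    simp
  have hne := pF_ne_zero (ext0 ξ) hΞ0 hlast
  have hvan : ∀ t ∈ Z, MvPolynomial.eval (fun k => ((t k : ℕ) : ℚ)) (pF (ext0 ξ)) = 0 := by
    intro t ht
    rw [eval_pF, sum_ext0]
    have h1 : f (fun q => ((vv t q : ℤ) : ℚ)) = 0 := by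
      have h2 : f (fun q => ((vv t q : ℤ) : ℚ)) ∈ Submodule.map f (Submodule.span ℚ
          ((fun t : Fin ((n + 2) + (n + 2)) → Fin K => fun q => ((vv t q : ℤ) : ℚ)) '' (Z : Set _))) :=
        Submodule.mem_map_of_mem (Submodule.subset_span ⟨t, ht, rfl⟩)
      rw [hf'] at h2
      exact (Submodule.mem_bot ℚ).1 h2
    rw [hfx] at h1
    rw [← h1]
    refine sum_congr rfl fun q _ => ?_
    rw [vv_cast]
  set S : Finset ℚ := (univ : Finset (Fin K)).image (fun k : Fin K => ((k : ℕ) : ℚ)) with hS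
  have hScard : #S = K := by
    rw [hS, card_image_of_injective]
    · simp
    · intro a b hab
      simpa [Fin.ext_iff] using hab
  have hsz := MvPolynomial.schwartz_zippel_totalDegree hne S
  rw [hScard] at hsz
  have hle : #Z ≤ #{f ∈ Fintype.piFinset fun _ ↦ S | MvPolynomial.eval f (pF (ext0 ξ)) = 0} := by
    refine card_le_card_of_injOn (fun t k => ((t k : ℕ) : ℚ)) ?_ ?_
    · intro t ht
      rw [mem_coe, mem_filter, Fintype.mem_piFinset]
      refine ⟨fun k => ?_, hvan t ht⟩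
      rw [hS, mem_image]
      exact ⟨t k, mem_univ _, rfl⟩
    · intro a _ b _ hab
      ext k
      have := congrFun hab k
      simpa using this
  have hKpos : (0 : ℝ) < K := by exact_mod_cast hK1
  have hsz' : (#Z : ℝ) / (K : ℝ) ^ ((n + 2) + (n + 2)) ≤ degB n / K := by
    have h1 : ((#{f ∈ Fintype.piFinset fun _ ↦ S | MvPolynomial.eval f (pF (ext0 ξ)) = 0} : ℕ) : ℝ)
        / (K : ℝ) ^ ((n + 2) + (n + 2)) ≤ ((pF (ext0 ξ)).totalDegree : ℝ) / K := by
      have h0 := (NNRat.cast_le (K := ℝ)).mpr hsz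
      push_cast at h0
      exact h0
    have h2 : (#Z : ℝ) ≤
        (#{f ∈ Fintype.piFinset fun _ ↦ S | MvPolynomial.eval f (pF (ext0 ξ)) = 0} : ℕ) := by
      exact_mod_cast hle
    have h3 : ((pF (ext0 ξ)).totalDegree : ℝ) ≤ degB n := by
      exact_mod_cast totalDegree_pF (ext0 ξ)
    calc _ ≤ ((#{f ∈ Fintype.piFinset fun _ ↦ S | MvPolynomial.eval f (pF (ext0 ξ)) = 0} : ℕ) : ℝ)
        / (K : ℝ) ^ ((n + 2) + (n + 2)) := by gcongr
      _ ≤ _ := h1
      _ ≤ _ := by gcongr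
  have hcard : (Fintype.card (Fin ((n + 2) + (n + 2)) → Fin K) : ℝ)
      = (K : ℝ) ^ ((n + 2) + (n + 2)) := by
    rw [Fintype.card_fun, Fintype.card_fin, Fintype.card_fin]
    push_cast; rfl
  rw [hcard] at hZ
  rw [div_le_div_iff₀ (by positivity) hKpos] at hsz'
  have h5 : (degB n : ℝ) * (K : ℝ) ^ ((n + 2) + (n + 2)) ≤ ε * K * (K : ℝ) ^ ((n + 2) + (n + 2)) := by
    gcongr
  nlinarith

/-- integral version with a common multiplier -/
theorem exists_multiplier (n : ℕ) (ε : ℝ) (K : ℕ) (hK1 : 1 ≤ K) (hK : (degB n : ℝ) ≤ ε * K) :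
    ∃ V : ℕ, 1 ≤ V ∧ ∃ m : Finset (Fin ((n + 2) + (n + 2)) → Fin K) → Coord (n + 2) →
      (Fin ((n + 2) + (n + 2)) → Fin K) → ℤ,
      ∀ Z : Finset (Fin ((n + 2) + (n + 2)) → Fin K),
        ε * Fintype.card (Fin ((n + 2) + (n + 2)) → Fin K) < #Z → ∀ p : Coord (n + 2),
        (V : ℤ) • (Pi.single p 1 : Coord (n + 2) → ℤ) = ∑ t ∈ Z, m Z p t • vv t := by
  classical
  have h : ∀ (Z : Finset (Fin ((n + 2) + (n + 2)) → Fin K)) (p : Coord (n + 2)),
      ∃ c : (Fin ((n + 2) + (n + 2)) → Fin K) → ℚ,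
        ε * Fintype.card (Fin ((n + 2) + (n + 2)) → Fin K) < #Z →
      ∑ t ∈ Z, c t • (fun q => ((vv t q : ℤ) : ℚ)) = (Pi.single p 1 : Coord (n + 2) → ℚ) := by
    intro Z p
    by_cases hZ : ε * Fintype.card (Fin ((n + 2) + (n + 2)) → Fin K) < #Z
    · obtain ⟨c, hc⟩ := large_spans n ε K hK1 hK Z hZ p
      exact ⟨c, fun _ => hc⟩
    · exact ⟨fun _ => 0, fun h => absurd h hZ⟩
  choose c hc using h
  set V : ℕ := ∏ Z, ∏ p, ∏ t, (c Z p t).den with hV
  have hVpos : 0 < V := by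
    rw [hV]
    exact prod_pos fun Z _ => prod_pos fun p _ => prod_pos fun t _ => (c Z p t).den_pos
  have hdvd : ∀ Z p t, (c Z p t).den ∣ V := by
    intro Z p t
    exact ((dvd_prod_of_mem (fun t => (c Z p t).den) (mem_univ t)).trans
      (dvd_prod_of_mem (fun p => ∏ t, (c Z p t).den) (mem_univ p))).trans
      (dvd_prod_of_mem (fun Z => ∏ p, ∏ t, (c Z p t).den) (mem_univ Z))
  refine ⟨V, hVpos, fun Z p t => (c Z p t).num * ((V / (c Z p t).den : ℕ) : ℤ), ?_⟩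
  intro Z hZ p
  have h1 := hc Z p hZ
  have hm : ∀ t, (((c Z p t).num * ((V / (c Z p t).den : ℕ) : ℤ) : ℤ) : ℚ) = V * c Z p t := by
    intro t
    obtain ⟨e, he⟩ := hdvd Z p t
    have hden : ((c Z p t).den : ℚ) ≠ 0 := by exact_mod_cast (c Z p t).den_nz
    have h2 : V / (c Z p t).den = e := by
      rw [he, Nat.mul_div_cancel_left _ (c Z p t).den_pos]
    rw [h2]
    have h3 : (V : ℚ) = (c Z p t).den * e := by exact_mod_cast he
    rw [h3]
    push_cast
    have h4 : (c Z p t) * (c Z p t).den = (c Z p t).num := Rat.mul_den_eq_num _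
    rw [← h4]
    ring
  ext q
  have h5 := congrFun h1 q
  simp only [Finset.sum_apply, Pi.smul_apply, smul_eq_mul] at h5 ⊢
  have h6 : ((∑ t ∈ Z, (c Z p t).num * ((V / (c Z p t).den : ℕ) : ℤ) * vv t q : ℤ) : ℚ)
      = V * (Pi.single p 1 : Coord (n + 2) → ℚ) q := by
    rw [← h5, mul_sum]
    rw [Int.cast_sum]
    refine sum_congr rfl fun t _ => ?_
    rw [Int.cast_mul, hm t]
    ring
  have h7 : ((Pi.single p 1 : Coord (n + 2) → ℤ) q : ℚ) = (Pi.single p 1 : Coord (n + 2) → ℚ) q := by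
    simp only [Pi.single_apply]
    split_ifs <;> simp
  rw [← h7] at h6
  exact_mod_cast h6.symm

end R68CP
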