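import Pool.Agent.R68.CP.Core

/-!
# The uniform twisted recurrence statement, main theorem
(proof by helper93, formalization by helper68)
-/

namespace R68CP

open Finset

/-- the vectors `P + s Q - s^2 v` -/
def vec {ι : Type*} (P Q v : ι → ℤ) (s : ℕ) : ι → ℤ :=
  P + (s : ℤ) • Q - ((s : ℤ) ^ 2) • v

lemma char_vec {ι : Type*} (χ : AddChar (ι → ℤ) ℂ) (P Q v : ι → ℤ) (c : ℤ) (s : ℕ) :
    χ (c • vec P Q v s) = χ (c • P) * χ (c • Q) ^ s * χ (-(c • v)) ^ (s ^ 2) := by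
  rw [← AddChar.map_nsmul_eq_pow, ← AddChar.map_nsmul_eq_pow, ← AddChar.map_add_eq_mul,
    ← AddChar.map_add_eq_mul]
  congr 1
  unfold vec
  ext i
  simp only [Pi.smul_apply, Pi.add_apply, Pi.sub_apply, Pi.neg_apply, smul_eq_mul]
  simp only [nsmul_eq_mul, Nat.cast_pow]
  ring

section

variable {ι κ : Type*} [Fintype ι] [DecidableEq ι] [Fintype κ] [DecidableEq κ]

/-- characters close to 1 on the basis are close to 1 everywhere -/
lemma chi_basis (χ : AddChar (ι → ℤ) ℂ) (h1 : ∀ x, ‖χ x‖ = 1) (c : ℤ) (δ : ℝ)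
    (hδ : ∀ i, ‖χ (c • (Pi.single i 1 : ι → ℤ)) - 1‖ ≤ δ) (x : ι → ℤ) :
    ‖χ (c • x) - 1‖ ≤ (∑ i, (|x i| : ℤ)) * δ := by
  have hx : c • x = ∑ i, x i • (c • (Pi.single i 1 : ι → ℤ)) := by
    ext j
    simp only [Pi.smul_apply, smul_eq_mul, Finset.sum_apply, Pi.single_apply]
    rw [Finset.sum_eq_single j]
    · simp; ring
    · intro i _ hij
      simp [hij.symm]
    · simp
  rw [hx]
  refine (chi_sum χ h1 _ _).trans ?_
  push_cast
  rw [sum_mul]
  refine sum_le_sum fun i _ => ?_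
  have h2 := chi_zsmul χ h1 (x i) (c • (Pi.single i 1 : ι → ℤ))
  push_cast at h2
  refine h2.trans ?_
  gcongr
  exact hδ i

theorem core [Nonempty κ]
    (v : κ → ι → ℤ) (α : ℝ) (hα : 0 < α) (V : ℕ) (hV : 1 ≤ V)
    (m : Finset κ → ι → κ → ℤ)
    (hspan : ∀ Z : Finset κ, (α / 4) ^ 2 / 8 * Fintype.card κ < #Z → ∀ i : ι,
      (V : ℤ) • (Pi.single i 1 : ι → ℤ) = ∑ t ∈ Z, m Z i t • v t) :
    ∃ N0 : ℕ, 1 ≤ N0 ∧ ∃ J : ℕ, ∀ P Q : ℕ → κ → ι → ℤ, ∀ E : Set (ι → ℤ),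
      (∀ N : ℕ, ∃ a b : ι → ℤ, (∀ i, a i + N ≤ b i) ∧
        α / 2 * ∏ i, ((b i - a i : ℤ) : ℝ) ≤ ((E ∩ {x | ∀ i, a i ≤ x i ∧ x i < b i}).ncard : ℝ)) →
      ∃ j < J, ∃ t : κ, ∃ s : ℕ, ∃ x ∈ E, ∃ y ∈ E,
        x - y = ((N0 : ℤ) ^ j) • vec (P j t) (Q j t) (v t) s := by
  classical
  set β : ℝ := α / 4 with hβ
  have hβ0 : 0 < β := by positivity
  set ε : ℝ := β ^ 2 / 8 with hε
  have hε0 : 0 < ε := by positivity
  obtain ⟨q, hq, C, hC, L0, hweyl⟩ := weyl ε hε0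
  set N0 : ℕ := q * V with hN0
  have hN01 : 1 ≤ N0 := Nat.mul_pos hq hV
  obtain ⟨J0, hJ0⟩ := exists_nat_ge (8 / β ^ 2)
  set J : ℕ := J0 + 1 with hJ
  have hJpos : 0 < J := Nat.succ_pos _
  set M1 : ℝ := ∑ Z : Finset κ, ∑ i : ι, ∑ t : κ, (|m Z i t| : ℝ) with hM1
  have hM1nn : 0 ≤ M1 := by
    refine sum_nonneg fun Z _ => sum_nonneg fun i _ => sum_nonneg fun t _ => ?_
    exact_mod_cast abs_nonneg _
  have hM1le : ∀ Z : Finset κ, ∀ i, ∑ t ∈ Z, (|m Z i t| : ℝ) ≤ M1 := by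
    intro Z i
    have hnn : ∀ Z i t, (0 : ℝ) ≤ (|m Z i t| : ℝ) := fun Z i t => by exact_mod_cast abs_nonneg _
    calc ∑ t ∈ Z, (|m Z i t| : ℝ) ≤ ∑ t : κ, (|m Z i t| : ℝ) :=
          sum_le_sum_of_subset_of_nonneg (subset_univ _) fun t _ _ => hnn Z i t
      _ ≤ ∑ i : ι, ∑ t : κ, (|m Z i t| : ℝ) :=
          single_le_sum (f := fun i => ∑ t : κ, (|m Z i t| : ℝ))
            (fun i _ => sum_nonneg fun t _ => hnn Z i t) (mem_univ i)
      _ ≤ M1 :=
          single_le_sum (f := fun Z => ∑ i : ι, ∑ t : κ, (|m Z i t| : ℝ))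
            (fun Z _ => sum_nonneg fun i _ => sum_nonneg fun t _ => hnn Z i t) (mem_univ Z)
  refine ⟨N0, hN01, J, ?_⟩
  intro P Q E hE
  -- step relation
  let R : ℕ → ℝ → ℝ → ℕ → Prop := fun j δ δ' L =>
    L0 ≤ L ∧ 1 ≤ L ∧ M1 * (C / L) ≤ δ ∧ N0 * δ' ≤ δ ∧
      ∀ s < L, ∀ t : κ, ((∑ i, |vec (P j t) (Q j t) (v t) s i| : ℤ) : ℝ) * δ' ≤ 1 / 4
  have hstep : ∀ j δ, 0 < δ → ∃ δ' L, 0 < δ' ∧ R j δ δ' L := by
    intro j δ hδ
    obtain ⟨L1, hL1⟩ := exists_nat_ge (M1 * C / δ)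
    set L : ℕ := L0 + 1 + L1 with hL
    set D : ℝ := ∑ s ∈ range L, ∑ t : κ,
      ((∑ i, |vec (P j t) (Q j t) (v t) s i| : ℤ) : ℝ) with hD
    have hnn : ∀ s t, (0 : ℝ) ≤ ((∑ i, |vec (P j t) (Q j t) (v t) s i| : ℤ) : ℝ) := by
      intro s t
      exact_mod_cast sum_nonneg fun i _ => abs_nonneg _
    have hDnn : 0 ≤ D := sum_nonneg fun s _ => sum_nonneg fun t _ => hnn s t
    have hN0r : (0 : ℝ) < N0 := by exact_mod_cast hN01
    refine ⟨min (δ / N0) (1 / (4 * (D + 1))), L, lt_min (by positivity) (by positivity),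
      by omega, by omega, ?_, ?_, ?_⟩
    · have hLpos : (0 : ℝ) < L := by rw [hL]; push_cast; positivity
      rw [← mul_div_assoc, div_le_iff₀ hLpos]
      rw [div_le_iff₀ hδ] at hL1
      have : (L1 : ℝ) ≤ L := by rw [hL]; push_cast; linarith [Nat.cast_nonneg (α := ℝ) L0]
      nlinarith
    · calc (N0 : ℝ) * min (δ / N0) (1 / (4 * (D + 1))) ≤ N0 * (δ / N0) := by
            gcongr; exact min_le_left _ _
        _ = δ := by field_simp
    · intro s hs t
      have h1 : ((∑ i, |vec (P j t) (Q j t) (v t) s i| : ℤ) : ℝ) ≤ D := by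
        calc _ ≤ ∑ t : κ, ((∑ i, |vec (P j t) (Q j t) (v t) s i| : ℤ) : ℝ) :=
              single_le_sum (f := fun t => ((∑ i, |vec (P j t) (Q j t) (v t) s i| : ℤ) : ℝ))
                (fun t _ => hnn s t) (mem_univ t)
          _ ≤ D :=
              single_le_sum (f := fun s => ∑ t : κ,
                  ((∑ i, |vec (P j t) (Q j t) (v t) s i| : ℤ) : ℝ))
                (fun s _ => sum_nonneg fun t _ => hnn s t) (mem_range.2 hs)
      calc _ ≤ (D + 1) * (1 / (4 * (D + 1))) := by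
            gcongr
            · linarith
            · exact min_le_right _ _
        _ = 1 / 4 := by field_simp
  obtain ⟨δ, L, -, hδpos, hR⟩ := exists_seq R hstep J 1 one_pos
  -- bound on the entries
  set RR : ℕ := ∑ j ∈ range J, ∑ s ∈ range (L j), ∑ t : κ, ∑ i : ι,
    (((N0 : ℤ) ^ j) • vec (P j t) (Q j t) (v t) s i).natAbs with hRR
  have hRRle : ∀ j < J, ∀ s < L j, ∀ t : κ, ∀ i : ι,
      |(((N0 : ℤ) ^ j) • vec (P j t) (Q j t) (v t) s) i| ≤ RR := by
    intro j hj s hs t i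
    rw [← Int.natCast_natAbs]
    have : ((((N0 : ℤ) ^ j) • vec (P j t) (Q j t) (v t) s) i).natAbs ≤ RR := by
      calc _ ≤ ∑ i : ι, (((N0 : ℤ) ^ j) • vec (P j t) (Q j t) (v t) s i).natAbs :=
            single_le_sum (f := fun i => (((N0 : ℤ) ^ j) • vec (P j t) (Q j t) (v t) s i).natAbs)
              (fun i _ => Nat.zero_le _) (mem_univ i)
        _ ≤ ∑ t : κ, ∑ i : ι, (((N0 : ℤ) ^ j) • vec (P j t) (Q j t) (v t) s i).natAbs :=
            single_le_sum (f := fun t => ∑ i : ι,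
                (((N0 : ℤ) ^ j) • vec (P j t) (Q j t) (v t) s i).natAbs)
              (fun i _ => Nat.zero_le _) (mem_univ t)
        _ ≤ ∑ s ∈ range (L j), ∑ t : κ, ∑ i : ι,
              (((N0 : ℤ) ^ j) • vec (P j t) (Q j t) (v t) s i).natAbs :=
            single_le_sum (f := fun s => ∑ t : κ, ∑ i : ι,
                (((N0 : ℤ) ^ j) • vec (P j t) (Q j t) (v t) s i).natAbs)
              (fun i _ => Nat.zero_le _) (mem_range.2 hs)
        _ ≤ RR :=
            single_le_sum (f := fun j => ∑ s ∈ range (L j), ∑ t : κ, ∑ i : ι,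
                (((N0 : ℤ) ^ j) • vec (P j t) (Q j t) (v t) s i).natAbs)
              (fun i _ => Nat.zero_le _) (mem_range.2 hj)
    exact_mod_cast this
  obtain ⟨mm, hmm, S, hS, hlift⟩ := box_group α hα E hE RR
  have : ∀ i, NeZero (mm i) := fun i => ⟨hmm i⟩
  have hcardG : (Fintype.card (∀ i, ZMod (mm i)) : ℝ) = ∏ i, (mm i : ℝ) := by
    rw [Fintype.card_pi]
    push_cast
    exact prod_congr rfl fun i _ => by rw [ZMod.card]
  -- characters
  let χ : AddChar (∀ i, ZMod (mm i)) ℂ → AddChar (ι → ℤ) ℂ := fun ψ =>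
    ψ.compAddMonoidHom (red mm)
  have hχ : ∀ ψ x, χ ψ x = ψ (red mm x) := fun ψ x => rfl
  have hχ1 : ∀ ψ x, ‖χ ψ x‖ = 1 := fun ψ x => by rw [hχ]; exact AddChar.norm_apply ψ _
  let X : ℕ → Finset (AddChar (∀ i, ZMod (mm i)) ℂ) := fun j =>
    univ.filter fun ψ => ∀ i, ‖χ ψ (((N0 : ℤ) ^ j) • (Pi.single i 1 : ι → ℤ)) - 1‖ ≤ δ j
  have hX : ∀ j ψ, ψ ∈ X j ↔
      ∀ i, ‖χ ψ (((N0 : ℤ) ^ j) • (Pi.single i 1 : ι → ℤ)) - 1‖ ≤ δ j := by
    intro j ψ; simp [X]
  have hmono : ∀ j < J, X j ⊆ X (j + 1) := by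
    intro j hj ψ hψ
    rw [hX] at hψ ⊢
    intro i
    have h1 := hψ i
    have h2 := chi_nsmul (χ ψ) (hχ1 ψ) N0 (((N0 : ℤ) ^ j) • (Pi.single i 1 : ι → ℤ))
    have h3 : N0 • ((N0 : ℤ) ^ j) • (Pi.single i 1 : ι → ℤ)
        = ((N0 : ℤ) ^ (j + 1)) • (Pi.single i 1 : ι → ℤ) := by
      rw [← natCast_zsmul, smul_smul, pow_succ']
    rw [h3] at h2
    refine h2.trans (le_trans ?_ (hR j hj).2.2.2.1)
    gcongr
  obtain ⟨j, hj, hsmall⟩ := exists_small_step S X J hJpos hmono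
  obtain ⟨hRa, hRb, hRc, hRd, hRe⟩ := hR j hj
  have hδj : 0 < δ (j + 1) := hδpos (j + 1) (by omega)
  have hLpos : (0 : ℝ) < L j := by exact_mod_cast hRb
  have : Nonempty (Fin (L j)) := ⟨⟨0, hRb⟩⟩
  have hfin := main_finite (W := Fin (L j) × κ) S
    (fun w => red mm (((N0 : ℤ) ^ j) • vec (P j w.2) (Q j w.2) (v w.2) w.1))
    β ε hβ0 hε (by rw [hcardG]; exact hS) (X j) (X (j + 1))
    (by
      rw [hX]
      intro i
      rw [hχ]
      simpa using (hδpos j (by omega)).le)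
    (by
      intro ψ hψ w
      rw [hX] at hψ
      have h1 := chi_basis (χ ψ) (hχ1 ψ) ((N0 : ℤ) ^ j) (δ j) hψ
        (vec (P j w.2) (Q j w.2) (v w.2) w.1)
      rw [hχ] at h1
      refine h1.trans ?_
      exact_mod_cast hRe w.1 w.1.2 w.2)
    (by
      intro ψ hψ
      by_contra hlt
      push Not at hlt
      apply hψ
      rw [hX]
      set g : κ → ℝ := fun t => ‖∑ s ∈ range (L j),
        χ ψ (((N0 : ℤ) ^ j) • vec (P j t) (Q j t) (v t) s)‖ with hg
      have hgle : ∀ t, g t ≤ L j := by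
        intro t
        refine (norm_sum_le _ _).trans ?_
        simp [hχ1]
      set Z : Finset κ := univ.filter fun t => ε * L j ≤ g t with hZ
      have hsum : 2 * ε * (L j * Fintype.card κ) < ∑ t : κ, g t := by
        have h1 : ‖∑ w : Fin (L j) × κ,
            ψ (red mm (((N0 : ℤ) ^ j) • vec (P j w.2) (Q j w.2) (v w.2) w.1))‖ ≤ ∑ t : κ, g t := by
          rw [Fintype.sum_prod_type_right]
          refine (norm_sum_le _ _).trans (sum_le_sum fun t _ => ?_)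
          simp only [hg]
          rw [← Fin.sum_univ_eq_sum_range (fun s => χ ψ (((N0 : ℤ) ^ j) •
            vec (P j t) (Q j t) (v t) s)) (L j)]
          exact le_of_eq rfl
        have h2 : (Fintype.card (Fin (L j) × κ) : ℝ) = L j * Fintype.card κ := by
          rw [Fintype.card_prod, Fintype.card_fin]; push_cast; rfl
        rw [h2] at hlt
        linarith
      have hZcard : ε * Fintype.card κ < #Z := by
        have h1 : ∑ t : κ, g t ≤ ∑ t : κ, ((if ε * L j ≤ g t then (L j : ℝ) else 0) + ε * L j) := by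
          refine sum_le_sum fun t _ => ?_
          split_ifs with h
          · have := hgle t
            have : 0 ≤ ε * L j := by positivity
            linarith
          · push Not at h
            linarith
        have h2 : ∑ t : κ, ((if ε * L j ≤ g t then (L j : ℝ) else 0) + ε * L j)
            = #Z * L j + Fintype.card κ * (ε * L j) := by
          rw [sum_add_distrib, ← sum_filter, sum_const, sum_const, card_univ, nsmul_eq_mul,
            nsmul_eq_mul]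
        rw [h2] at h1
        have h3 : ε * Fintype.card κ * L j < #Z * L j := by nlinarith
        exact lt_of_mul_lt_mul_right h3 hLpos.le
      intro i
      have hsp := hspan Z hZcard i
      have hZw : ∀ t ∈ Z, ‖χ ψ (((q : ℤ) * (N0 : ℤ) ^ j) • v t) - 1‖ ≤ C / L j := by
        intro t ht
        rw [hZ, mem_filter] at ht
        have h1 := hweyl (L j) hRa hRb (χ ψ (((N0 : ℤ) ^ j) • P j t))
          (χ ψ (((N0 : ℤ) ^ j) • Q j t)) (χ ψ (-(((N0 : ℤ) ^ j) • v t)))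
          (hχ1 ψ _) (hχ1 ψ _) (hχ1 ψ _) (by
            refine ht.2.trans (le_of_eq ?_)
            simp only [hg]
            congr 1
            exact sum_congr rfl fun s _ => char_vec _ _ _ _ _ _)
        rw [← AddChar.map_nsmul_eq_pow] at h1
        have e : q • -(((N0 : ℤ) ^ j) • v t) = -(((q : ℤ) * (N0 : ℤ) ^ j) • v t) := by
          rw [smul_neg, mul_smul, natCast_zsmul]
        rw [e, chi_neg (χ ψ) (hχ1 ψ)] at h1
        exact h1
      have he : ((N0 : ℤ) ^ (j + 1)) • (Pi.single i 1 : ι → ℤ)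
          = ∑ t ∈ Z, m Z i t • (((q : ℤ) * (N0 : ℤ) ^ j) • v t) := by
        have e1 : ((N0 : ℤ) ^ (j + 1)) • (Pi.single i 1 : ι → ℤ)
            = ((q : ℤ) * (N0 : ℤ) ^ j) • ((V : ℤ) • (Pi.single i 1 : ι → ℤ)) := by
          rw [← mul_smul]
          congr 1
          rw [pow_succ]
          nth_rewrite 2 [hN0]
          push_cast
          ring
        rw [e1, hsp, smul_sum]
        refine sum_congr rfl fun t _ => ?_
        rw [smul_comm]
      rw [he]
      refine (chi_sum (χ ψ) (hχ1 ψ) _ _).trans (le_trans ?_ hRc)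
      calc ∑ t ∈ Z, ‖χ ψ (m Z i t • (((q : ℤ) * (N0 : ℤ) ^ j) • v t)) - 1‖
          ≤ ∑ t ∈ Z, (|m Z i t| : ℝ) * (C / L j) := by
            refine sum_le_sum fun t ht => ?_
            have h1 := chi_zsmul (χ ψ) (hχ1 ψ) (m Z i t) (((q : ℤ) * (N0 : ℤ) ^ j) • v t)
            push_cast at h1
            refine h1.trans ?_
            gcongr
            exact hZw t ht
        _ = (∑ t ∈ Z, (|m Z i t| : ℝ)) * (C / L j) := by rw [sum_mul]
        _ ≤ M1 * (C / L j) := by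
            gcongr
            exact hM1le Z i)
    (by
      refine hsmall.trans ?_
      rw [div_eq_mul_inv, mul_comm]
      gcongr
      have hJr : (8 / β ^ 2 : ℝ) ≤ J := by rw [hJ]; push_cast; linarith
      rw [inv_le_comm₀ (by positivity) (by positivity)]
      refine le_trans (le_of_eq ?_) hJr
      rw [inv_div])
  obtain ⟨w, x, hx, y, hy, hxy⟩ := hfin
  obtain ⟨x', hx', y', hy', hxy'⟩ := hlift (((N0 : ℤ) ^ j) • vec (P j w.2) (Q j w.2) (v w.2) w.1)
    (fun i => hRRle j hj w.1 w.1.2 w.2 i) ⟨x, hx, y, hy, hxy⟩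
  exact ⟨j, hj, w.2, w.1, x', hx', y', hy', hxy'⟩

end

end R68CP
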