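import Mathlib

/-!
# A polynomial family of conjugates of `E_01` spanning the trace zero matrices
(proof by helper93, formalization by helper68)
-/

namespace R68CP

open Finset Matrix

section fam

variable {n : ℕ} {R : Type*} [CommRing R]

/-- first parameter vector, with zero entry at `0` -/
def tt (a : Fin ((n + 2) + (n + 2)) → R) : Fin (n + 2) → R := fun i =>
  if i = 0 then 0 else a (Fin.castAdd (n + 2) i)

/-- second parameter vector, with entries `0` at `0` and `1` at `1` -/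
def uu (a : Fin ((n + 2) + (n + 2)) → R) : Fin (n + 2) → R := fun j =>
  if j = 0 then 0 else if j = 1 then 1 else a (Fin.natAdd (n + 2) j)

/-- the column `g e_0` -/
def xx (a : Fin ((n + 2) + (n + 2)) → R) : Fin (n + 2) → R := Pi.single 0 1 + tt a

/-- the row `e_1 g⁻¹` -/
def yy (a : Fin ((n + 2) + (n + 2)) → R) : Fin (n + 2) → R :=
  uu a - (uu a ⬝ᵥ tt a) • Pi.single 0 1

lemma map_tt {S : Type*} [CommRing S] (f : R →+* S) (a : Fin ((n + 2) + (n + 2)) → R)
    (i : Fin (n + 2)) : f (tt a i) = tt (fun k => f (a k)) i := by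
  unfold tt
  split_ifs <;> simp

lemma map_uu {S : Type*} [CommRing S] (f : R →+* S) (a : Fin ((n + 2) + (n + 2)) → R)
    (i : Fin (n + 2)) : f (uu a i) = uu (fun k => f (a k)) i := by
  unfold uu
  split_ifs <;> simp

lemma map_xx {S : Type*} [CommRing S] (f : R →+* S) (a : Fin ((n + 2) + (n + 2)) → R)
    (i : Fin (n + 2)) : f (xx a i) = xx (fun k => f (a k)) i := by
  unfold xx
  rw [Pi.add_apply, Pi.add_apply, map_add, map_tt]
  congr 1
  by_cases h : i = 0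
  · subst h; simp
  · simp [Pi.single_apply, h]

lemma map_yy {S : Type*} [CommRing S] (f : R →+* S) (a : Fin ((n + 2) + (n + 2)) → R)
    (i : Fin (n + 2)) : f (yy a i) = yy (fun k => f (a k)) i := by
  unfold yy
  have h1 : f (uu a ⬝ᵥ tt a) = uu (fun k => f (a k)) ⬝ᵥ tt (fun k => f (a k)) := by
    simp only [dotProduct, map_sum, map_mul, map_tt, map_uu]
  rw [Pi.sub_apply, Pi.sub_apply, map_sub, map_uu]
  congr 1
  rw [Pi.smul_apply, Pi.smul_apply, smul_eq_mul, smul_eq_mul, map_mul, h1]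
  congr 1
  by_cases h : i = 0
  · subst h; simp
  · simp [Pi.single_apply, h]

/-- the conjugating matrix -/
def gg (a : Fin ((n + 2) + (n + 2)) → R) : Matrix (Fin (n + 2)) (Fin (n + 2)) R :=
  (1 + vecMulVec (tt a) (Pi.single 0 1)) * (1 - vecMulVec (Pi.single 1 1) (uu a - Pi.single 1 1))

/-- its inverse -/
def gi (a : Fin ((n + 2) + (n + 2)) → R) : Matrix (Fin (n + 2)) (Fin (n + 2)) R :=
  (1 + vecMulVec (Pi.single 1 1) (uu a - Pi.single 1 1)) * (1 - vecMulVec (tt a) (Pi.single 0 1))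

lemma four {M : Type*} [Monoid M] (A B C D : M) (h1 : B * C = 1) (h2 : A * D = 1) :
    (A * B) * (C * D) = 1 := by
  rw [mul_assoc, ← mul_assoc B, h1, one_mul, h2]

lemma gi_mul_gg (a : Fin ((n + 2) + (n + 2)) → R) : gi a * gg a = 1 := by
  have h1 : (1 - vecMulVec (tt a) (Pi.single 0 1)) * (1 + vecMulVec (tt a) (Pi.single 0 1))
      = (1 : Matrix (Fin (n + 2)) (Fin (n + 2)) R) := by
    rw [sub_mul, one_mul, mul_add, mul_one, vecMulVec_mul_vecMulVec]
    have : (Pi.single 0 1 : Fin (n + 2) → R) ⬝ᵥ tt a = 0 := by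
      rw [single_one_dotProduct]; simp [tt]
    rw [this, zero_smul, vecMulVec_zero]
    abel
  have h2 : (1 + vecMulVec (Pi.single 1 1) (uu a - Pi.single 1 1)) *
      (1 - vecMulVec (Pi.single 1 1) (uu a - Pi.single 1 1))
      = (1 : Matrix (Fin (n + 2)) (Fin (n + 2)) R) := by
    rw [mul_sub, mul_one, add_mul, one_mul, vecMulVec_mul_vecMulVec]
    have : (uu a - Pi.single 1 1) ⬝ᵥ (Pi.single 1 1 : Fin (n + 2) → R) = 0 := by
      rw [dotProduct_single_one]; simp [uu]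
    rw [this, zero_smul, vecMulVec_zero]
    abel
  unfold gi gg
  exact four _ _ _ _ h1 h2

lemma gg_conj (a : Fin ((n + 2) + (n + 2)) → R) :
    gg a * vecMulVec (Pi.single 0 1) (Pi.single 1 1) * gi a = vecMulVec (xx a) (yy a) := by
  rw [mul_vecMulVec, vecMulVec_mul]
  congr 1
  · unfold gg
    rw [← mulVec_mulVec, sub_mulVec, one_mulVec, vecMulVec_mulVec]
    have h1 : (uu a - Pi.single 1 1) ⬝ᵥ (Pi.single 0 1 : Fin (n + 2) → R) = 0 := by
      rw [dotProduct_single_one]; simp [uu]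
    rw [h1, MulOpposite.op_zero, zero_smul, sub_zero, add_mulVec, one_mulVec, vecMulVec_mulVec]
    have h2 : (Pi.single 0 1 : Fin (n + 2) → R) ⬝ᵥ Pi.single 0 1 = 1 := by
      rw [dotProduct_single_one]; simp
    rw [h2, MulOpposite.op_one, one_smul]
    rfl
  · unfold gi
    rw [← vecMul_vecMul, vecMul_add, vecMul_one, vecMul_vecMulVec]
    have h1 : (Pi.single 1 1 : Fin (n + 2) → R) ⬝ᵥ Pi.single 1 1 = 1 := by
      rw [dotProduct_single_one]; simp
    rw [h1, one_smul]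
    have h2 : (Pi.single 1 1 : Fin (n + 2) → R) + (uu a - Pi.single 1 1) = uu a := by abel
    rw [h2, vecMul_sub, vecMul_one, vecMul_vecMulVec]
    rfl

end fam

section vanish

variable {n : ℕ}

lemma exists_param (t u : Fin (n + 2) → ℚ) (ht : t 0 = 0) (hu0 : u 0 = 0) (hu1 : u 1 = 1) :
    ∃ a : Fin ((n + 2) + (n + 2)) → ℚ, tt a = t ∧ uu a = u := by
  refine ⟨Fin.append t u, ?_, ?_⟩
  · ext i
    unfold tt
    split_ifs with h
    · rw [h, ht]
    · rw [Fin.append_left]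
  · ext i
    unfold uu
    split_ifs with h h'
    · rw [h, hu0]
    · rw [h', hu1]
    · rw [Fin.append_right]

lemma scalar_of_vanish (Ξ : Matrix (Fin (n + 2)) (Fin (n + 2)) ℚ)
    (h : ∀ a : Fin ((n + 2) + (n + 2)) → ℚ, xx a ⬝ᵥ Ξ *ᵥ yy a = 0)
    (hlast : Ξ (Fin.last (n + 1)) (Fin.last (n + 1)) = 0) : Ξ = 0 := by
  -- the bilinear form
  have key : ∀ t u : Fin (n + 2) → ℚ, t 0 = 0 → u 0 = 0 → u 1 = 1 → ∀ c : ℚ,
      (Pi.single 0 1 : Fin (n + 2) → ℚ) ⬝ᵥ Ξ *ᵥ u + c * (t ⬝ᵥ Ξ *ᵥ u)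
        - c * (u ⬝ᵥ t) * (Ξ 0 0 + c * (t ⬝ᵥ Ξ *ᵥ (Pi.single 0 1))) = 0 := by
    intro t u ht hu0 hu1 c
    obtain ⟨a, e1, e2⟩ := exists_param (c • t) u (by simp [ht]) hu0 hu1
    have h1 := h a
    unfold xx yy at h1
    rw [e1, e2] at h1
    rw [← h1]
    have h2 : (Pi.single 0 1 : Fin (n + 2) → ℚ) ⬝ᵥ Ξ *ᵥ (Pi.single 0 1) = Ξ 0 0 := by
      simp
    simp only [mulVec_sub, mulVec_smul, dotProduct_sub, dotProduct_smul, add_dotProduct,
      smul_dotProduct, smul_eq_mul, h2]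
  have k0 : ∀ u : Fin (n + 2) → ℚ, u 0 = 0 → u 1 = 1 →
      (Pi.single 0 1 : Fin (n + 2) → ℚ) ⬝ᵥ Ξ *ᵥ u = 0 := by
    intro u hu0 hu1
    have := key 0 u rfl hu0 hu1 0
    simpa using this
  have k1 : ∀ t u : Fin (n + 2) → ℚ, t 0 = 0 → u 0 = 0 → u 1 = 1 →
      (u ⬝ᵥ t) * (t ⬝ᵥ Ξ *ᵥ (Pi.single 0 1)) = 0 := by
    intro t u ht hu0 hu1
    have a1 := key t u ht hu0 hu1 1
    have a2 := key t u ht hu0 hu1 (-1)
    rw [k0 u hu0 hu1] at a1 a2
    linarith
  have k2 : ∀ t u : Fin (n + 2) → ℚ, t 0 = 0 → u 0 = 0 → u 1 = 1 →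
      t ⬝ᵥ Ξ *ᵥ u = (u ⬝ᵥ t) * Ξ 0 0 := by
    intro t u ht hu0 hu1
    have a1 := key t u ht hu0 hu1 1
    have a3 := k1 t u ht hu0 hu1
    rw [k0 u hu0 hu1] at a1
    linarith
  have h10 : (1 : Fin (n + 2)) ≠ 0 := by simp
  have e1 : ∀ i, (Pi.single i 1 : Fin (n + 2) → ℚ) ⬝ᵥ Ξ *ᵥ (Pi.single 1 1) = Ξ i 1 := by
    intro i; simp
  have e2 : ∀ i j, (Pi.single i 1 : Fin (n + 2) → ℚ) ⬝ᵥ Ξ *ᵥ (Pi.single 1 1 + Pi.single j 1)
      = Ξ i 1 + Ξ i j := by
    intro i j; simp [mulVec_add]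
  have e3 : ∀ i, (Pi.single i 1 : Fin (n + 2) → ℚ) ⬝ᵥ Ξ *ᵥ (Pi.single 0 1) = Ξ i 0 := by
    intro i; simp
  have su0 : (Pi.single 1 1 : Fin (n + 2) → ℚ) 0 = 0 := by simp
  have su1 : (Pi.single 1 1 : Fin (n + 2) → ℚ) 1 = 1 := by simp
  have sj0 : ∀ j : Fin (n + 2), j ≠ 0 → j ≠ 1 →
      (Pi.single 1 1 + Pi.single j 1 : Fin (n + 2) → ℚ) 0 = 0 := by
    intro j h0 h1; simp [Pi.single_apply, h0.symm]
  have sj1 : ∀ j : Fin (n + 2), j ≠ 0 → j ≠ 1 →
      (Pi.single 1 1 + Pi.single j 1 : Fin (n + 2) → ℚ) 1 = 1 := by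
    intro j h0 h1; simp [Pi.single_apply, h1.symm]
  have st : ∀ i : Fin (n + 2), i ≠ 0 → (Pi.single i 1 : Fin (n + 2) → ℚ) 0 = 0 := by
    intro i h0; simp [Pi.single_apply, h0.symm]
  have hrow0 : ∀ j, j ≠ 0 → Ξ 0 j = 0 := by
    have b1 : Ξ 0 1 = 0 := by
      have := k0 _ su0 su1
      rwa [e1] at this
    intro j hj
    by_cases hj1 : j = 1
    · rw [hj1, b1]
    · have := k0 _ (sj0 j hj hj1) (sj1 j hj hj1)
      rw [e2, b1] at this
      linarith
  have hcol0 : ∀ i, i ≠ 0 → Ξ i 0 = 0 := by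
    intro i hi
    by_cases hi1 : i = 1
    · subst hi1
      have := k1 _ _ (st 1 hi) su0 su1
      rw [e3] at this
      simpa using this
    · have := k1 _ _ (st i hi) (sj0 i hi hi1) (sj1 i hi hi1)
      rw [e3] at this
      simpa [add_dotProduct, Pi.single_apply, hi1] using this
  have hrest : ∀ i j, i ≠ 0 → j ≠ 0 → Ξ i j = if i = j then Ξ 0 0 else 0 := by
    intro i j hi hj
    have b1 : Ξ i 1 = if i = 1 then Ξ 0 0 else 0 := by
      have := k2 _ _ (st i hi) su0 su1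
      rw [e1] at this
      rw [this]
      by_cases hi1 : i = 1
      · simp [hi1]
      · simp [Pi.single_apply, hi1]
    by_cases hj1 : j = 1
    · rw [hj1, b1]
    · have := k2 _ _ (st i hi) (sj0 j hj hj1) (sj1 j hj hj1)
      rw [e2, b1] at this
      simp only [dotProduct_single_one, Pi.add_apply, Pi.single_apply] at this
      by_cases hij : i = j
      · subst hij
        simp [hj1] at this
        simp [this]
      · by_cases hi1 : i = 1
        · subst hi1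
          simp [hij] at this
          simp [this, hij]
        · simp [hij, hi1] at this
          simp [this, hij]
  have hl0 : Fin.last (n + 1) ≠ 0 := by
    intro h0
    have := congrArg Fin.val h0
    simp at this
  have h00 : Ξ 0 0 = 0 := by
    have := hrest _ _ hl0 hl0
    rw [hlast] at this
    simpa using this.symm
  ext i j
  by_cases hi : i = 0
  · by_cases hj : j = 0
    · rw [hi, hj, h00]; rfl
    · rw [hi, hrow0 j hj]; rfl
  · by_cases hj : j = 0
    · rw [hj, hcol0 i hi]; rfl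
    · rw [hrest i j hi hj, h00]
      simp

end vanish

end R68CP
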