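import Mathlib

/-!
# A quantitative quadratic Weyl estimate with a bounded number of shifts
(proof by helper93, formalization by helper68)
-/

namespace R68CP

open Finset

lemma norm_pow_sub_one_le {z : ℂ} (hz : ‖z‖ = 1) (n : ℕ) : ‖z ^ n - 1‖ ≤ n * ‖z - 1‖ := by
  induction n with
  | zero => simp
  | succ n ih =>
    have h : z ^ (n + 1) - 1 = z ^ n * (z - 1) + (z ^ n - 1) := by ring
    rw [h]
    refine (norm_add_le _ _).trans ?_
    rw [norm_mul, norm_pow, hz]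
    push_cast
    have : (1 : ℝ) ^ n * ‖z - 1‖ = ‖z - 1‖ := by simp
    linarith [this, ih]

lemma norm_geom_le {w : ℂ} (hw : ‖w‖ = 1) (L : ℕ) :
    ‖∑ s ∈ range L, w ^ s‖ * ‖w - 1‖ ≤ 2 := by
  rw [← norm_mul, geom_sum_mul]
  refine (norm_sub_le _ _).trans ?_
  rw [norm_pow, hw]
  norm_num

/-- Cauchy-Schwarz part of van der Corput. -/
lemma vdc_cs (f : ℕ → ℂ) (hf : ∀ s, ‖f s‖ ≤ 1) (H L : ℕ) (K : ℝ) (hK0 : 0 ≤ K)
    (hK : ∀ h < H, ∀ h' < H, h ≠ h' →
      ‖∑ s ∈ range L, f (s + h) * (starRingEnd ℂ) (f (s + h'))‖ ≤ K) :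
    ‖∑ s ∈ range L, ∑ h ∈ range H, f (s + h)‖ ^ 2 ≤ L * (H * L + H ^ 2 * K) := by
  have h1 : ‖∑ s ∈ range L, ∑ h ∈ range H, f (s + h)‖ ^ 2
      ≤ L * ∑ s ∈ range L, ‖∑ h ∈ range H, f (s + h)‖ ^ 2 := by
    calc ‖∑ s ∈ range L, ∑ h ∈ range H, f (s + h)‖ ^ 2
        ≤ (∑ s ∈ range L, ‖∑ h ∈ range H, f (s + h)‖) ^ 2 := by
          gcongr
          exact norm_sum_le _ _
      _ ≤ (range L).card * ∑ s ∈ range L, ‖∑ h ∈ range H, f (s + h)‖ ^ 2 :=
          sq_sum_le_card_mul_sum_sq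
      _ = _ := by rw [card_range]
  refine h1.trans ?_
  gcongr
  have h2 : ((∑ s ∈ range L, ‖∑ h ∈ range H, f (s + h)‖ ^ 2 : ℝ) : ℂ)
      = ∑ h ∈ range H, ∑ h' ∈ range H,
          ∑ s ∈ range L, f (s + h) * (starRingEnd ℂ) (f (s + h')) := by
    push_cast
    have : ∀ s ∈ range L, ((‖∑ h ∈ range H, f (s + h)‖ : ℂ)) ^ 2
        = ∑ h ∈ range H, ∑ h' ∈ range H, f (s + h) * (starRingEnd ℂ) (f (s + h')) := by
      intro s _
      rw [← Complex.mul_conj', map_sum, sum_mul_sum]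
    rw [sum_congr rfl this]
    rw [sum_comm]
    refine sum_congr rfl fun h _ => ?_
    rw [sum_comm]
  have h3 : (∑ s ∈ range L, ‖∑ h ∈ range H, f (s + h)‖ ^ 2 : ℝ)
      = ‖((∑ s ∈ range L, ‖∑ h ∈ range H, f (s + h)‖ ^ 2 : ℝ) : ℂ)‖ := by
    rw [Complex.norm_real, Real.norm_of_nonneg]
    positivity
  rw [h3, h2]
  calc ‖∑ h ∈ range H, ∑ h' ∈ range H,
          ∑ s ∈ range L, f (s + h) * (starRingEnd ℂ) (f (s + h'))‖
      ≤ ∑ h ∈ range H, ∑ h' ∈ range H,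
          ‖∑ s ∈ range L, f (s + h) * (starRingEnd ℂ) (f (s + h'))‖ := by
        refine (norm_sum_le _ _).trans (sum_le_sum fun h _ => norm_sum_le _ _)
    _ ≤ ∑ h ∈ range H, ∑ h' ∈ range H, ((if h = h' then (L : ℝ) else 0) + K) := by
        refine sum_le_sum fun h hh => sum_le_sum fun h' hh' => ?_
        by_cases e : h = h'
        · subst e
          simp only [if_true]
          have : ‖∑ s ∈ range L, f (s + h) * (starRingEnd ℂ) (f (s + h))‖ ≤ L := by
            refine (norm_sum_le _ _).trans ?_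
            calc _ ≤ ∑ s ∈ range L, (1 : ℝ) := by
                  refine sum_le_sum fun s _ => ?_
                  rw [norm_mul, RCLike.norm_conj]
                  have := hf (s + h)
                  nlinarith [norm_nonneg (f (s + h))]
              _ = L := by simp
          linarith
        · simp only [e, if_false, zero_add]
          exact hK h (mem_range.1 hh) h' (mem_range.1 hh') e
    _ = H * L + H ^ 2 * K := by
        simp only [sum_add_distrib, sum_ite_eq, sum_const, card_range, nsmul_eq_mul]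
        rw [sum_congr rfl (g := fun _ => (L : ℝ))]
        · simp only [sum_const, card_range, nsmul_eq_mul]
          ring
        · intro h hh
          simp [hh]

lemma vdc_shift (f : ℕ → ℂ) (hf : ∀ s, ‖f s‖ ≤ 1) (h L : ℕ) :
    ‖∑ s ∈ range L, f s - ∑ s ∈ range L, f (s + h)‖ ≤ 2 * h := by
  induction h with
  | zero => simp
  | succ h ih =>
    have e : ∑ s ∈ range L, f (s + (h + 1)) =
        ∑ s ∈ range L, f (s + h) + f (L + h) - f h := by
      have h1 := Finset.sum_range_succ (fun s => f (s + h)) L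
      have h2 := Finset.sum_range_succ' (fun s => f (s + h)) L
      rw [h1] at h2
      simp only [zero_add] at h2
      have h3 : ∑ s ∈ range L, f (s + (h + 1)) = ∑ s ∈ range L, f (s + 1 + h) :=
        sum_congr rfl fun s _ => by ring_nf
      rw [h3, h2]
      ring
    rw [e]
    have e2 : ∑ s ∈ range L, f s - (∑ s ∈ range L, f (s + h) + f (L + h) - f h)
        = (∑ s ∈ range L, f s - ∑ s ∈ range L, f (s + h)) + (f h - f (L + h)) := by ring
    rw [e2]
    refine (norm_add_le _ _).trans ?_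
    have e3 : ‖f h - f (L + h)‖ ≤ 2 := (norm_sub_le _ _).trans (by linarith [hf h, hf (L + h)])
    push_cast
    linarith

lemma vdc (f : ℕ → ℂ) (hf : ∀ s, ‖f s‖ ≤ 1) (H L : ℕ) :
    H * ‖∑ s ∈ range L, f s‖ ≤ 2 * H ^ 2 + ‖∑ s ∈ range L, ∑ h ∈ range H, f (s + h)‖ := by
  have e : (H : ℂ) * ∑ s ∈ range L, f s
      = ∑ h ∈ range H, (∑ s ∈ range L, f s - ∑ s ∈ range L, f (s + h))
        + ∑ s ∈ range L, ∑ h ∈ range H, f (s + h) := by
    rw [sum_sub_distrib, sum_const, card_range, nsmul_eq_mul]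
    rw [sum_comm (s := range L) (t := range H)]
    ring
  have e1 : (H : ℝ) * ‖∑ s ∈ range L, f s‖ = ‖(H : ℂ) * ∑ s ∈ range L, f s‖ := by
    rw [norm_mul]; simp
  rw [e1, e]
  refine (norm_add_le _ _).trans ?_
  gcongr
  calc ‖∑ h ∈ range H, (∑ s ∈ range L, f s - ∑ s ∈ range L, f (s + h))‖
      ≤ ∑ h ∈ range H, (2 * H : ℝ) := by
        refine (norm_sum_le _ _).trans (sum_le_sum fun h hh => ?_)
        refine (vdc_shift f hf h L).trans ?_
        have := mem_range.1 hh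
        have : (h : ℝ) ≤ H := by exact_mod_cast this.le
        linarith
    _ = 2 * H ^ 2 := by
        simp only [sum_const, card_range, nsmul_eq_mul]; ring

lemma corr_aux (a b z : ℂ) (ha : ‖a‖ = 1) (hb : ‖b‖ = 1) (hz : ‖z‖ = 1) (h' r L : ℕ) :
    ‖∑ s ∈ range L, (a * b ^ (s + (h' + r)) * z ^ ((s + (h' + r)) ^ 2)) *
      (starRingEnd ℂ) (a * b ^ (s + h') * z ^ ((s + h') ^ 2))‖
    = ‖∑ s ∈ range L, (z ^ (2 * r)) ^ s‖ := by
  have key : ∀ s ∈ range L, (a * b ^ (s + (h' + r)) * z ^ ((s + (h' + r)) ^ 2)) *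
      (starRingEnd ℂ) (a * b ^ (s + h') * z ^ ((s + h') ^ 2))
      = (b ^ r * z ^ (2 * h' * r + r ^ 2)) * (z ^ (2 * r)) ^ s := by
    intro s _
    have h1 : a * b ^ (s + (h' + r)) * z ^ ((s + (h' + r)) ^ 2)
        = (a * b ^ (s + h') * z ^ ((s + h') ^ 2)) *
          ((b ^ r * z ^ (2 * h' * r + r ^ 2)) * (z ^ (2 * r)) ^ s) := by ring
    have h2 : (a * b ^ (s + h') * z ^ ((s + h') ^ 2)) *
        (starRingEnd ℂ) (a * b ^ (s + h') * z ^ ((s + h') ^ 2)) = 1 := by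
      rw [Complex.mul_conj']
      simp [ha, hb, hz]
    rw [h1]
    calc _ = ((a * b ^ (s + h') * z ^ ((s + h') ^ 2)) *
        (starRingEnd ℂ) (a * b ^ (s + h') * z ^ ((s + h') ^ 2))) *
          ((b ^ r * z ^ (2 * h' * r + r ^ 2)) * (z ^ (2 * r)) ^ s) := by ring
      _ = _ := by rw [h2, one_mul]
  rw [sum_congr rfl key, ← mul_sum, norm_mul]
  simp [hb, hz]

/-- Lemma W. -/
lemma weyl (ε : ℝ) (hε : 0 < ε) : ∃ q : ℕ, 1 ≤ q ∧ ∃ C : ℝ, 0 < C ∧ ∃ L0 : ℕ,
    ∀ L : ℕ, L0 ≤ L → 1 ≤ L → ∀ a b z : ℂ, ‖a‖ = 1 → ‖b‖ = 1 → ‖z‖ = 1 →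
      ε * L ≤ ‖∑ s ∈ range L, a * b ^ s * z ^ (s ^ 2)‖ → ‖z ^ q - 1‖ ≤ C / L := by
  obtain ⟨H, hH⟩ := exists_nat_ge (16 / ε ^ 2 + 1)
  have hH0 : (0 : ℝ) < H := lt_of_lt_of_le (by positivity) hH
  obtain ⟨L0, hL0⟩ := exists_nat_ge (4 * H / ε)
  refine ⟨2 * H.factorial, by have := H.factorial_pos; omega,
    H.factorial * (32 / ε ^ 2), by have := H.factorial_pos; positivity, L0, ?_⟩
  intro L hL hL1 a b z ha hb hz hS
  have hLpos : (0 : ℝ) < L := by exact_mod_cast hL1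
  have hL0' : 4 * H / ε ≤ L := hL0.trans (by exact_mod_cast hL)
  by_contra hcon
  push Not at hcon
  -- all shifts are bad
  have hbad : ∀ r : ℕ, 1 ≤ r → r < H → 32 / ε ^ 2 / L < ‖z ^ (2 * r) - 1‖ := by
    intro r hr hrH
    by_contra hle
    push Not at hle
    obtain ⟨t, ht⟩ : r ∣ H.factorial := Nat.dvd_factorial (by omega) hrH.le
    have h1 : z ^ (2 * H.factorial) = (z ^ (2 * r)) ^ t := by
      rw [ht, ← pow_mul]; ring_nf
    have h2 : ‖z ^ (2 * H.factorial) - 1‖ ≤ t * (32 / ε ^ 2 / L) := by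
      rw [h1]
      refine (norm_pow_sub_one_le (by simp [hz]) t).trans ?_
      gcongr
    have h3 : (t : ℝ) ≤ H.factorial := by
      have : t ≤ H.factorial := by
        rw [ht]; exact Nat.le_mul_of_pos_left t (by omega)
      exact_mod_cast this
    have h4 : (t : ℝ) * (32 / ε ^ 2 / L) ≤ H.factorial * (32 / ε ^ 2) / L := by
      rw [mul_div_assoc]
      gcongr
    linarith
  set f : ℕ → ℂ := fun s => a * b ^ s * z ^ (s ^ 2) with hf
  have hf1 : ∀ s, ‖f s‖ ≤ 1 := by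
    intro s; simp [hf, ha, hb, hz]
  set K : ℝ := 2 * L / (32 / ε ^ 2) with hK
  have hK0 : 0 ≤ K := by positivity
  have hgeo : ∀ r : ℕ, 1 ≤ r → r < H → ‖∑ s ∈ range L, (z ^ (2 * r)) ^ s‖ ≤ K := by
    intro r hr hrH
    have h1 := norm_geom_le (w := z ^ (2 * r)) (by simp [hz]) L
    have h2 := hbad r hr hrH
    have h3 : ‖∑ s ∈ range L, (z ^ (2 * r)) ^ s‖ * (32 / ε ^ 2 / L) ≤ 2 :=
      le_trans (by gcongr) h1
    rw [hK, le_div_iff₀ (by positivity)]
    have h4 : ‖∑ s ∈ range L, (z ^ (2 * r)) ^ s‖ * (32 / ε ^ 2 / L) * L ≤ 2 * L := by gcongr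
    calc _ = ‖∑ s ∈ range L, (z ^ (2 * r)) ^ s‖ * (32 / ε ^ 2 / L) * L := by
          field_simp
      _ ≤ _ := h4
  have hcorr : ∀ h < H, ∀ h' < H, h ≠ h' →
      ‖∑ s ∈ range L, f (s + h) * (starRingEnd ℂ) (f (s + h'))‖ ≤ K := by
    have main : ∀ h' r : ℕ, 1 ≤ r → h' + r < H →
        ‖∑ s ∈ range L, f (s + (h' + r)) * (starRingEnd ℂ) (f (s + h'))‖ ≤ K := by
      intro h' r hr hlt
      have := corr_aux a b z ha hb hz h' r L
      simp only [hf]
      rw [this]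
      exact hgeo r hr (by omega)
    intro h hh h' hh' hne
    rcases lt_or_gt_of_ne hne with hlt | hlt
    · obtain ⟨r, rfl⟩ := Nat.exists_eq_add_of_lt hlt
      have h1 := main h (r + 1) (by omega) (by omega)
      have h2 : ‖∑ s ∈ range L, f (s + h) * (starRingEnd ℂ) (f (s + (h + r + 1)))‖
          = ‖∑ s ∈ range L, f (s + (h + (r + 1))) * (starRingEnd ℂ) (f (s + h))‖ := by
        rw [← RCLike.norm_conj]
        congr 1
        rw [map_sum]
        refine sum_congr rfl fun s _ => ?_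
        rw [map_mul, RingHomCompTriple.comp_apply]
        simp only [RingHom.id_apply]
        rw [mul_comm]
        rfl
      rw [h2]
      exact h1
    · obtain ⟨r, rfl⟩ := Nat.exists_eq_add_of_lt hlt
      exact main h' (r + 1) (by omega) (by omega)
  have hcs := vdc_cs f hf1 H L K hK0 hcorr
  have hv := vdc f hf1 H L
  have hS' : ε * L ≤ ‖∑ s ∈ range L, f s‖ := hS
  set S2 := ‖∑ s ∈ range L, ∑ h ∈ range H, f (s + h)‖ with hS2
  have h1 : ε * L * H / 2 ≤ S2 := by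
    have h2 : 2 * (H : ℝ) ^ 2 ≤ ε * L * H / 2 := by
      have : 4 * (H : ℝ) ≤ L * ε := by
        rw [div_le_iff₀ hε] at hL0'
        exact hL0'
      nlinarith
    have h3 : (H : ℝ) * (ε * L) ≤ H * ‖∑ s ∈ range L, f s‖ := by gcongr
    nlinarith
  have h4 : (ε * L * H / 2) ^ 2 ≤ L * (H * L + H ^ 2 * K) :=
    le_trans (by gcongr) hcs
  have h5 : K = L * ε ^ 2 / 16 := by
    rw [hK]; field_simp; norm_num
  rw [h5] at h4
  have h6 : 16 < H * ε ^ 2 := by
    have : 16 / ε ^ 2 < H := by linarith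
    rwa [div_lt_iff₀ (by positivity)] at this
  have h7 : (L : ℝ) ^ 2 * (H * (H * ε ^ 2)) / 4 ≤ L ^ 2 * (H + H * (H * ε ^ 2) / 16) := by
    nlinarith
  have h8 : (H * (H * ε ^ 2) : ℝ) / 4 ≤ (H + H * (H * ε ^ 2) / 16) := by
    have : (0 : ℝ) < L ^ 2 := by positivity
    rw [mul_div_assoc] at h7
    exact le_of_mul_le_mul_left h7 this
  nlinarith

end R68CP
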